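import Mathlib

set_option autoImplicit false
open Set Filter Topology

namespace Pool.Agent.Results.MP_0e2b0d_an.Blowup

/-- The `j`-th derivative in `x` of `u` at `(x, t)`. -/
noncomputable def D (j : ℕ) (u : ℝ × ℝ → ℝ) (x t : ℝ) : ℝ := iteratedDeriv j (fun y => u (y, t)) x

/-- `u` is a smooth solution of the equation for `t < T` whose `L²(0,L)` norm tends to infinity
as `t` increases to `T`. -/
def Blows (L T : ℝ) (u : ℝ × ℝ → ℝ) : Prop :=
  ContDiffOn ℝ (⊤ : ℕ∞) u (univ ×ˢ Iio T) ∧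
  (∀ x ∈ Icc 0 L, ∀ t ∈ Ico 0 T,
    deriv (fun s => u (x, s)) t + D 1 u x t + D 3 u x t + u (x, t) * D 1 u x t = 0) ∧
  Tendsto (fun t => ∫ x in (0 : ℝ)..L, u (x, t) ^ 2) (𝓝[<] T) atTop

noncomputable def w (c T : ℝ) (z : ℝ × ℝ) : ℝ := (z.1 - c) * (z.2 - T)⁻¹ - 1

lemma D1 (c T x t : ℝ) : D 1 (w c T) x t = (t - T)⁻¹ := by
  rw [D, iteratedDeriv_one]
  simp [w]

lemma D2 (c T x t : ℝ) : D 2 (w c T) x t = 0 := by
  have h : iteratedDeriv 1 (fun y => w c T (y, t)) = fun _ => (t - T)⁻¹ :=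
    funext fun x => D1 c T x t
  rw [D, iteratedDeriv_succ, h]; simp

lemma D3 (c T x t : ℝ) : D 3 (w c T) x t = 0 := by
  have h : iteratedDeriv 2 (fun y => w c T (y, t)) = fun _ => 0 := funext fun x => D2 c T x t
  rw [D, iteratedDeriv_succ, h]; simp

lemma blows {L : ℝ} (hL : 0 < L) (c T : ℝ) : Blows L T (w c T) := by
  refine ⟨?_, fun x _ t ht => ?_, ?_⟩
  · unfold w
    refine ContDiffOn.sub (ContDiffOn.mul (by fun_prop) (ContDiffOn.inv (by fun_prop) ?_))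
      contDiffOn_const
    exact fun z hz => (sub_neg.2 hz.2).ne
  · have h0 : t - T ≠ 0 := (sub_neg.2 ht.2).ne
    have h := ((((hasDerivAt_id t).sub_const T).fun_inv h0).const_mul (x - c)).sub_const 1
    rw [D1, D3, show deriv (fun s => w c T (x, s)) t = _ from h.deriv, w]
    simp only [id]
    field_simp
    ring
  · have e : ∀ t, ∫ x in (0 : ℝ)..L, w c T (x, t) ^ 2 =
        L ^ 3 / 12 * ((t - T)⁻¹) ^ 2 + L * ((L / 2 - c) * (t - T)⁻¹ - 1) ^ 2 := by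
      intro t
      generalize ha : (t - T)⁻¹ = a
      have := intervalIntegral.integral_eq_sub_of_hasDerivAt (a := 0) (b := L)
        (f := fun x => a ^ 2 * x ^ 3 / 3 - a * (c * a + 1) * x ^ 2 + (c * a + 1) ^ 2 * x)
        (f' := fun x => w c T (x, t) ^ 2)
        (fun x _ => by
          refine (((((hasDerivAt_pow 3 x).const_mul (a ^ 2)).div_const 3).fun_sub
            ((hasDerivAt_pow 2 x).const_mul (a * (c * a + 1)))).fun_add
            ((hasDerivAt_id x).const_mul ((c * a + 1) ^ 2))).congr_deriv ?_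
          simp only [w, ha]; push_cast; ring)
        (Continuous.intervalIntegrable (by simp only [w, ha]; fun_prop) _ _)
      rw [this]; ring
    simp only [e]
    have h1 : Tendsto (fun t => (t - T)⁻¹) (𝓝[<] T) atBot := by
      refine tendsto_inv_nhdsLT_zero.comp (tendsto_nhdsWithin_iff.2 ⟨?_, ?_⟩)
      · exact tendsto_nhdsWithin_of_tendsto_nhds
          (by simpa using (continuous_sub_right T).tendsto T)
      · filter_upwards [self_mem_nhdsWithin] with t ht using sub_neg.2 (mem_Iio.1 ht)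
    have h2 : Tendsto (fun t => L ^ 3 / 12 * ((t - T)⁻¹) ^ 2) (𝓝[<] T) atTop := by
      refine Tendsto.const_mul_atTop (by positivity) ?_
      simpa [sq] using h1.atBot_mul_atBot₀ h1
    exact tendsto_atTop_mono (fun t => le_add_of_nonneg_right (by positivity)) h2

theorem result (L T : ℝ) (hL : 0 < L) (_hT : 0 < T) :
    (∃ (b30 a21 b20 h1 h2 h3 : ℝ) (u : ℝ × ℝ → ℝ), Blows L T u ∧ ∀ t ∈ Ico 0 T,
      u (0, t) = h1 ∧ D 1 u L t + b30 * u (L, t) = h2 ∧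
        D 2 u L t + (a21 * D 1 u 0 t + b20 * u (L, t)) = h3) ∧
    (∃ (a10 a11 a30 h1 h2 h3 : ℝ) (u : ℝ × ℝ → ℝ), Blows L T u ∧ ∀ t ∈ Ico 0 T,
      D 2 u 0 t + (a10 * u (0, t) + a11 * D 1 u 0 t) = h1 ∧ u (L, t) = h2 ∧
        D 1 u L t + a30 * u (0, t) = h3) ∧
    (∃ (a10 a11 b10 a30 b30 a20 a21 b20 : ℝ) (u : ℝ × ℝ → ℝ), Blows L T u ∧ ∀ t ∈ Ico 0 T,
      D 2 u 0 t + (a10 * u (0, t) + a11 * D 1 u 0 t + b10 * u (L, t)) = 0 ∧
        D 1 u L t + (a30 * u (0, t) + b30 * u (L, t)) = 0 ∧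
        D 2 u L t + (a20 * u (0, t) + a21 * D 1 u 0 t + b20 * u (L, t)) = 0) := by
  refine ⟨⟨-L⁻¹, 0, 0, -1, L⁻¹, 0, w 0 T, blows hL _ _, fun t _ => ?_⟩,
    ⟨0, 0, L⁻¹, 0, -1, -L⁻¹, w L T, blows hL _ _, fun t _ => ?_⟩,
    ⟨0, 0, 0, L⁻¹, -L⁻¹, 0, 0, 0, w 0 T, blows hL _ _, fun t _ => ?_⟩⟩ <;>
  · simp only [D1, D2, w]
    generalize (t - T)⁻¹ = a
    refine ⟨by ring, by field_simp; ring, by field_simp; ring⟩

end Pool.Agent.Results.MP_0e2b0d_an.Blowup
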